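import Pool.Agent.Helper95.LN.Stmts

/-!
# The linear bound, row EB: upper bound of the energy
-/

set_option autoImplicit false

namespace Pool.Agent.Helper22.LN

open MeasureTheory Filter Pool.Agent.Helper95.PW Pool.Agent.Helper95.LN

theorem nr_comm (x y : R3) : nr (x - y) = nr (y - x) := by
  unfold nr
  congr 1
  simp only [Pi.sub_apply]
  ring

theorem nr_nn (y : R3) : 0 ≤ nr y := Real.sqrt_nonneg _

theorem nr_eq (y : R3) : nr y = ‖(WithLp.toLp 2 y : EuclideanSpace ℝ (Fin 3))‖ := by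
  rw [EuclideanSpace.norm_eq]
  simp [Fin.sum_univ_three, nr]

theorem nr_tri (x y : R3) : nr (x + y) ≤ nr x + nr y := by
  rw [nr_eq, nr_eq, nr_eq, WithLp.toLp_add]
  exact norm_add_le _ _

/-- sum over the pairs of a symmetric kernel -/
theorem sym_sum {n : ℕ} (g : Fin n → Fin n → ℝ) (hs : ∀ k l, g k l = g l k)
    (h0 : ∀ k, g k k = 0) : ∑ k, ∑ l, g k l = 2 * ∑ k, ∑ l, if k < l then g k l else 0 := by
  have h1 : ∀ k l, g k l = (if k < l then g k l else 0) + (if l < k then g l k else 0) := by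
    intro k l
    rcases lt_trichotomy k l with h | h | h
    · rw [if_pos h, if_neg (not_lt.mpr h.le), add_zero]
    · subst h
      simp [h0]
    · rw [if_neg (not_lt.mpr h.le), if_pos h, zero_add, hs]
  have h2 : ∑ k, ∑ l, g k l =
      ∑ k, ∑ l, (if k < l then g k l else 0) + ∑ k, ∑ l, (if l < k then g l k else 0) := by
    rw [← Finset.sum_add_distrib]
    refine Finset.sum_congr rfl fun k _ => ?_
    rw [← Finset.sum_add_distrib]
    exact Finset.sum_congr rfl fun l _ => h1 k l
  rw [h2, Finset.sum_comm (f := fun k l => if l < k then g l k else 0)]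
  ring

/-- the kernel between different atoms -/
noncomputable def Gm {M : ℕ} (X : Fin M → R3) (i j : Fin M) : ℝ :=
  if i = j then 0 else 1 / nr (X i - X j)

theorem Gm_symm {M : ℕ} (X : Fin M → R3) (i j : Fin M) : Gm X i j = Gm X j i := by
  unfold Gm
  by_cases h : i = j
  · rw [if_pos h, if_pos h.symm]
  · rw [if_neg h, if_neg (fun h' => h h'.symm), nr_comm]

theorem Gm_self {M : ℕ} (X : Fin M → R3) (i : Fin M) : Gm X i i = 0 := by
  unfold Gm
  rw [if_pos rfl]

theorem nucR_eq {M : ℕ} (X : Fin M → R3) (Z : Fin M → ℝ) :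
    ∑ i, ∑ j, Z i * Z j * Gm X i j = 2 * nucR X Z := by
  rw [sym_sum (fun i j => Z i * Z j * Gm X i j) (fun i j => by rw [Gm_symm]; ring)
    (fun i => by rw [Gm_self, mul_zero])]
  unfold nucR
  congr 1
  refine Finset.sum_congr rfl fun i _ => Finset.sum_congr rfl fun j _ => ?_
  by_cases h : i < j
  · rw [if_pos h, if_pos h]
    unfold Gm
    rw [if_neg h.ne]
    ring
  · rw [if_neg h, if_neg h]

/-- sums over the electrons -/
theorem sum_el {M : ℕ} (Z : Fin M → ℕ) (F : Fin M → ℝ) :
    ∑ k : Fin (∑ j, Z j), F (finSigmaFinEquiv.symm k).1 = ∑ j, (Z j : ℝ) * F j := by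
  rw [Equiv.sum_comp (finSigmaFinEquiv (n := Z)).symm
    (fun p : (Σ j : Fin M, Fin (Z j)) => F p.1), Fintype.sum_sigma]
  refine Finset.sum_congr rfl fun j _ => ?_
  simp

theorem pd_tr (i : Fin 3) (g : R3 → ℝ) (c y : R3) :
    pd i (fun y => g (y - c)) y = pd i g (y - c) := by
  unfold pd
  rw [fderiv_comp_sub]

theorem tsup_tr (g : R3 → ℝ) (c y : R3) (h : y ∈ tsupport (fun y => g (y - c))) :
    y - c ∈ tsupport g :=
  tsupport_comp_subset_preimage g (f := fun y : R3 => y - c) (by fun_prop) h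

theorem cs_tr (g : R3 → ℝ) (c : R3) (h : HasCompactSupport g) :
    HasCompactSupport (fun y => g (y - c)) := by
  have h1 := h.comp_homeomorph (Homeomorph.subRight c)
  exact h1

theorem kap_ne (h2 : ST_ORB) : kap ≠ 0 := by
  obtain ⟨C, -, h⟩ := h2
  obtain ⟨-, -, -, h4, h5, -⟩ := h 1 one_pos
  intro hk
  have : ∀ y, orb 1 y ^ 2 = 0 := fun y => by rw [h4, hk, div_zero]
  simp only [this, integral_zero] at h5
  exact zero_ne_one h5

theorem pairI (a a' : ℝ) (X0 Y0 : R3) :
    ∫ x, ∫ y, (et a (x - X0) / kap) * (et a' (y - Y0) / kap) / nr (x - y) =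
      1 / kap ^ 2 * ∫ x, ∫ y, et a (x - X0) * et a' (y - Y0) / nr (x - y) := by
  rw [← integral_const_mul]
  congr 1
  funext x
  rw [← integral_const_mul]
  congr 1
  funext y
  rw [div_mul_div_comm, ← pow_two, div_div, mul_comm (kap ^ 2) (nr (x - y)), ← div_div]
  ring

theorem nr_sub_le (x y w : R3) : nr (x - y) ≤ nr (w - x) + nr (w - y) := by
  have h : x - y = (x - w) + (w - y) := by abel
  rw [h]
  refine (nr_tri _ _).trans ?_
  rw [nr_comm x w]

/-- row EB -/
theorem EB (h1 : ST_TRE) (h2 : ST_ORB) (h3 : ST_PT1) (h4 : ST_PT2) : ST_EB := by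
  have hk := kap_ne h2
  obtain ⟨Co, hCo, ho⟩ := h2
  intro z d hz hd
  set N : ℕ := ⌈z⌉₊ with hN
  set B : ℝ := 8 * 4 ^ N / d with hB
  set K : ℝ := Co * (4 * 16 ^ N / d ^ 2) with hK
  have hB0 : 0 ≤ B := by positivity
  have hK0 : 0 < K := by positivity
  refine ⟨K + z * B, by positivity, ?_⟩
  intro n M X Z E hS hn hZ hL
  subst hn
  set J : Fin (∑ j, Z j) → Fin M := fun k => (finSigmaFinEquiv.symm k).1 with hJ
  set m : Fin (∑ j, Z j) → ℕ := fun k => ((finSigmaFinEquiv.symm k).2 : ℕ) with hm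
  set a : Fin (∑ j, Z j) → ℝ := fun k => d / 2 / 4 ^ m k with ha
  set f : Fin (∑ j, Z j) → R3 → ℝ := fun k y => orb (a k) (y - X (J k)) with hf
  have ha0 : ∀ k, 0 < a k := fun k => by
    simp only [ha]
    positivity
  have had : ∀ k, a k ≤ d / 2 := fun k => by
    simp only [ha]
    exact div_le_self (by positivity) (one_le_pow₀ (by norm_num))
  have hmZ : ∀ k, m k < Z (J k) := fun k => (finSigmaFinEquiv.symm k).2.isLt
  have hmN : ∀ k, m k ≤ N := fun k => by
    have h5 : ((m k : ℕ) : ℝ) ≤ z := by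
      refine le_trans ?_ (hZ (J k))
      exact_mod_cast (hmZ k).le
    rw [hN]
    exact_mod_cast h5.trans (Nat.le_ceil z)
  have hinj : ∀ k l, J k = J l → m k = m l → k = l := by
    intro k l hJk hmk
    apply finSigmaFinEquiv.symm.injective
    refine Sigma.ext hJk ?_
    rw [Fin.heq_ext_iff (by simp only [hJ] at hJk; rw [hJk])]
    exact hmk
  have hlt : ∀ k l, J k = J l → m k < m l → a l ≤ a k / 4 := by
    intro k l _ hml
    simp only [ha]
    rw [div_div (d / 2) (4 ^ m k) 4, ← pow_succ]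
    exact div_le_div_of_nonneg_left (by positivity) (by positivity)
      (pow_le_pow_right₀ (by norm_num) hml)
  have hai : ∀ k, 4 / a k ≤ B := by
    intro k
    simp only [ha, hB]
    rw [div_div_eq_mul_div, div_div_eq_mul_div, div_le_div_iff_of_pos_right hd]
    have h5 : (4 : ℝ) ^ m k ≤ 4 ^ N := pow_le_pow_right₀ (by norm_num) (hmN k)
    linarith
  have hf2 : ∀ k y, f k y ^ 2 = et (a k) (y - X (J k)) / kap := fun k y =>
    (ho (a k) (ha0 k)).2.2.2.1 _
  have hsup : ∀ k y, y ∈ tsupport (f k) → a k / 2 ≤ nr (y - X (J k)) ∧ nr (y - X (J k)) ≤ a k :=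
    fun k y hy => (ho (a k) (ha0 k)).2.2.1 _ (tsup_tr _ _ _ hy)
  have hdis : ∀ i j y, y ∈ tsupport (f i) → y ∈ tsupport (f j) → i = j := by
    intro i j y hi hj
    obtain ⟨i1, i2⟩ := hsup i y hi
    obtain ⟨j1, j2⟩ := hsup j y hj
    have hJJ : J i = J j := by
      by_contra hne
      have h5 := hS _ _ hne
      have h6 := nr_sub_le (X (J i)) (X (J j)) y
      have h7 := had i
      have h8 := had j
      linarith
    rw [hJJ] at i1 i2
    rcases lt_trichotomy (m i) (m j) with h5 | h5 | h5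
    · have h6 := hlt i j hJJ h5
      have h7 := ha0 i
      linarith
    · exact hinj i j hJJ h5
    · have h6 := hlt j i hJJ.symm h5
      have h7 := ha0 j
      linarith
  obtain ⟨ψ, hψ, hA, hpos, hkin, hpair, hone⟩ := h1 _ f
    (fun k => (ho (a k) (ha0 k)).1.comp (contDiff_id.sub contDiff_const))
    (fun k => cs_tr _ _ (ho (a k) (ha0 k)).2.1) hdis
    (fun k => by
      have h5 := integral_sub_right_eq_self (μ := volume) (fun y : R3 => orb (a k) y ^ 2) (X (J k))
      simp only [hf]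
      rw [h5]
      exact (ho (a k) (ha0 k)).2.2.2.2.1)
  have hLo := hL ψ hψ hA
  unfold QM at hLo
  rw [hkin, hpair, hone M X (fun j => (Z j : ℝ)), ← mul_add, ← mul_sub, mul_comm E,
    mul_le_mul_iff_right₀ hpos] at hLo
  -- kinetic energy
  have hkb : ∑ l, ∑ i, ∫ y, pd i (f l) y ^ 2 ≤ K * ((∑ j, Z j : ℕ) : ℝ) := by
    have h5 : ∀ l, ∑ i, ∫ y, pd i (f l) y ^ 2 ≤ K := by
      intro l
      have h6 : ∀ i, ∫ y, pd i (f l) y ^ 2 = ∫ y, pd i (orb (a l)) y ^ 2 := by
        intro i
        rw [← integral_sub_right_eq_self (μ := volume) (fun y : R3 => pd i (orb (a l)) y ^ 2)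
          (X (J l))]
        congr 1
        funext y
        simp only [hf]
        rw [pd_tr]
      simp only [h6]
      refine (ho (a l) (ha0 l)).2.2.2.2.2.trans ?_
      rw [hK, div_eq_mul_one_div]
      refine mul_le_mul_of_nonneg_left ?_ hCo.le
      have h7 : (16 : ℝ) ^ m l ≤ 16 ^ N := pow_le_pow_right₀ (by norm_num) (hmN l)
      have h8 : 1 / a l ^ 2 = 4 * 16 ^ m l / d ^ 2 := by
        simp only [ha]
        have : (16 : ℝ) ^ m l = (4 ^ m l) ^ 2 := by
          rw [← pow_mul, mul_comm (m l) 2, pow_mul]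
          norm_num
        rw [this]
        field_simp
        try ring
      rw [h8]
      gcongr
    calc ∑ l, ∑ i, ∫ y, pd i (f l) y ^ 2 ≤ ∑ _l : Fin (∑ j, Z j), K :=
          Finset.sum_le_sum fun l _ => h5 l
      _ = K * ((∑ j, Z j : ℕ) : ℝ) := by
          rw [Finset.sum_const, Finset.card_univ, Fintype.card_fin, nsmul_eq_mul, mul_comm]
  -- the attraction
  have hat : ∀ l j, Gm X (J l) j ≤ ∫ y, f l y ^ 2 / nr (y - X j) := by
    intro l j
    unfold Gm
    by_cases h5 : J l = j
    · rw [if_pos h5]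
      exact integral_nonneg fun y => div_nonneg (sq_nonneg _) (nr_nn _)
    · rw [if_neg h5]
      have h6 : 2 * a l ≤ nr (X j - X (J l)) := by
        have h7 := hS j (J l) (fun h => h5 h.symm)
        have h8 := had l
        linarith
      have h7 := h3 (a l) (X j) (X (J l)) (ha0 l) h6
      have h8 : ∀ y, f l y ^ 2 / nr (y - X j) =
          1 / kap * (et (a l) (y - X (J l)) / nr (y - X j)) := by
        intro y
        rw [hf2]
        ring
      simp only [h8]
      rw [integral_const_mul, h7, nr_comm (X j)]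
      refine le_of_eq ?_
      field_simp
  have hatt : 2 * nucR X (fun j => (Z j : ℝ)) ≤
      ∑ l, ∑ j, (Z j : ℝ) * ∫ y, f l y ^ 2 / nr (y - X j) := by
    have h5 : 2 * nucR X (fun j => (Z j : ℝ)) = ∑ l, ∑ j, (Z j : ℝ) * Gm X (J l) j := by
      rw [← nucR_eq, sum_el Z (fun i => ∑ j, (Z j : ℝ) * Gm X i j)]
      refine Finset.sum_congr rfl fun i _ => ?_
      rw [Finset.mul_sum]
      exact Finset.sum_congr rfl fun j _ => by ring
    rw [h5]
    exact Finset.sum_le_sum fun l _ => Finset.sum_le_sum fun j _ =>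
      mul_le_mul_of_nonneg_left (hat l j) (Nat.cast_nonneg _)
  -- the repulsion
  have hpp : ∀ k l, k ≠ l → ∫ x, ∫ y, f k x ^ 2 * f l y ^ 2 / nr (x - y) ≤
      Gm X (J k) (J l) + if J k = J l then B else 0 := by
    intro k l hkl
    simp only [hf2]
    rw [pairI]
    unfold Gm
    have hk2 : 0 < kap ^ 2 := by positivity
    by_cases h5 : J k = J l
    · rw [if_pos h5, if_pos h5, zero_add]
      have h6 : m k ≠ m l := fun h => hkl (hinj k l h5 h)
      rcases lt_or_gt_of_ne h6 with h7 | h7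
      · have h8 := ((h4 (a k) (a l) (X (J k)) (X (J k)) (ha0 k) (ha0 l)).2 (hlt k l h5 h7)).1
        rw [← h5]
        calc 1 / kap ^ 2 * ∫ x, ∫ y, et (a k) (x - X (J k)) * et (a l) (y - X (J k)) / nr (x - y)
            ≤ 1 / kap ^ 2 * (kap ^ 2 * (4 / a k)) :=
              mul_le_mul_of_nonneg_left h8 (by positivity)
          _ = 4 / a k := by field_simp
          _ ≤ B := hai k
      · have h8 := ((h4 (a l) (a k) (X (J k)) (X (J k)) (ha0 l) (ha0 k)).2
          (hlt l k h5.symm h7)).2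
        rw [← h5]
        calc 1 / kap ^ 2 * ∫ x, ∫ y, et (a k) (x - X (J k)) * et (a l) (y - X (J k)) / nr (x - y)
            ≤ 1 / kap ^ 2 * (kap ^ 2 * (4 / a l)) :=
              mul_le_mul_of_nonneg_left h8 (by positivity)
          _ = 4 / a l := by field_simp
          _ ≤ B := hai l
    · rw [if_neg h5, if_neg h5, add_zero]
      have h6 : 3 * (a k + a l) ≤ nr (X (J k) - X (J l)) := by
        have h7 := hS _ _ h5
        have h8 := had k
        have h9 := had l
        linarith
      rw [(h4 (a k) (a l) (X (J k)) (X (J l)) (ha0 k) (ha0 l)).1 h6]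
      refine le_of_eq ?_
      field_simp
  have hrep : (∑ k, ∑ l, if k < l then ∫ x, ∫ y, f k x ^ 2 * f l y ^ 2 / nr (x - y) else 0) ≤
      nucR X (fun j => (Z j : ℝ)) + z * B * ((∑ j, Z j : ℕ) : ℝ) := by
    have h5 : (∑ k, ∑ l, if k < l then ∫ x, ∫ y, f k x ^ 2 * f l y ^ 2 / nr (x - y) else 0) ≤
        (∑ k, ∑ l, if k < l then Gm X (J k) (J l) else 0) +
          ∑ k, ∑ l, if J k = J l then B else 0 := by
      rw [← Finset.sum_add_distrib]
      refine Finset.sum_le_sum fun k _ => ?_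
      rw [← Finset.sum_add_distrib]
      refine Finset.sum_le_sum fun l _ => ?_
      by_cases h6 : k < l
      · rw [if_pos h6, if_pos h6]
        exact hpp k l h6.ne
      · rw [if_neg h6, if_neg h6, zero_add]
        split_ifs
        · exact hB0
        · exact le_refl _
    have h6 : (∑ k, ∑ l, if k < l then Gm X (J k) (J l) else 0) =
        nucR X (fun j => (Z j : ℝ)) := by
      have h7 := sym_sum (fun k l => Gm X (J k) (J l)) (fun k l => Gm_symm X _ _)
        (fun k => Gm_self X _)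
      have h8 : ∑ k, ∑ l, Gm X (J k) (J l) = 2 * nucR X (fun j => (Z j : ℝ)) := by
        rw [← nucR_eq, sum_el Z (fun i => ∑ l, Gm X i (J l))]
        refine Finset.sum_congr rfl fun i _ => ?_
        rw [sum_el Z (fun j => Gm X i j), Finset.mul_sum]
        exact Finset.sum_congr rfl fun j _ => by ring
      linarith
    have h7 : (∑ k, ∑ l, if J k = J l then B else 0) ≤ z * B * ((∑ j, Z j : ℕ) : ℝ) := by
      have h8 : ∀ k, (∑ l, if J k = J l then B else 0) ≤ z * B := by
        intro k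
        rw [sum_el Z (fun j => if J k = j then B else 0)]
        simp only [mul_ite, mul_zero, Finset.sum_ite_eq, Finset.mem_univ, if_true]
        exact mul_le_mul_of_nonneg_right (hZ (J k)) hB0
      calc (∑ k, ∑ l, if J k = J l then B else 0) ≤ ∑ _k : Fin (∑ j, Z j), z * B :=
            Finset.sum_le_sum fun k _ => h8 k
        _ = z * B * ((∑ j, Z j : ℕ) : ℝ) := by
            rw [Finset.sum_const, Finset.card_univ, Fintype.card_fin, nsmul_eq_mul, mul_comm]
    linarith
  have hfin : E + nucR X (fun j => (Z j : ℝ)) ≤ (K + z * B) * ((∑ j, Z j : ℕ) : ℝ) := by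
    rw [add_mul]
    linarith
  exact hfin

end Pool.Agent.Helper22.LN
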